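import Pool.Agent.Lib.H88S.Kn
import Pool.Agent.Lib.H88S.Pairing

/-!
# H72S: curvature operators bounded above by `-h` plus squares of simple bivectors

`sepT x y = ∑ a, (x a ∧ y a) ⊗ (x a ∧ y a)`.  If `sepT x y (u, v, u, v) ≤ (h / 2) G(u, u) G(v, v)` for all
`u`, `v`, then `sepT x y - h • kn G` satisfies `SphereNonpos` (`sphereNonpos_sep`).

Proof.  Let `(S; B)` be a sphere map, `c` a vector, `D = (1 + |c|²) S - 2 ∑ c_k B_k` and
`E_k = B_k - c_k S`, so `∑ E_k(x,x)² = S(x,x) D(x,x)` and `D` is positive semidefinite.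
`S(x,x) S(y,y) - ∑ B_k(x,x) B_k(y,y) ≤ S(x,x) D(y,y) + S(y,y) D(x,x) - 2 S(x,y) D(x,y)` (`sep_key`): both
sides do not change if a multiple of `x` is added to `y`, so one may assume `S(x,y) = 0`; then it is the
Cauchy-Schwarz inequality.  Sum over the `a`, use the bound for `u`, `v` in Gram decompositions of `S` and `D`,
and choose `c_k = ⟨B_k, G⟩ / ⟨S, G⟩`.
-/

set_option autoImplicit false

open Finset

namespace Pool.Agent.H72S

open Pool.Agent.H69Hopf Pool.Agent.H88S

variable {N : ℕ}

/-- The sum of the squares of the simple bivectors `x a ∧ y a`. -/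
def sepT {q : ℕ} (x y : Fin q → Fin N → ℝ) : Arr N := fun i j k l =>
  ∑ a, (x a i * y a j - x a j * y a i) * (x a k * y a l - x a l * y a k)

/-- `sec R u v = ∑ R i j k l u i v j u k v l`. -/
def sec (R : Arr N) (u v : Fin N → ℝ) : ℝ :=
  ∑ i, ∑ j, ∑ k, ∑ l, R i j k l * u i * v j * u k * v l

theorem sepT_algCurv {q : ℕ} (x y : Fin q → Fin N → ℝ) : IsAlgCurv (sepT x y) := by
  refine ⟨fun i j k l => ?_, fun i j k l => ?_, fun i j k l => ?_⟩
  · unfold sepT
    rw [← sum_neg_distrib]
    exact sum_congr rfl fun a _ => by ring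
  · unfold sepT
    exact sum_congr rfl fun a _ => by ring
  · unfold sepT
    rw [← sum_add_distrib, ← sum_add_distrib]
    exact sum_eq_zero fun a _ => by ring

private theorem b_add_left (A : Mat N) (x y z : Fin N → ℝ) :
    bilin A (x + y) z = bilin A x z + bilin A y z := by
  unfold bilin
  simp only [Pi.add_apply, add_mul, sum_add_distrib]

private theorem b_add_right (A : Mat N) (x y z : Fin N → ℝ) :
    bilin A x (y + z) = bilin A x y + bilin A x z := by
  unfold bilin
  simp only [Pi.add_apply, mul_add, sum_add_distrib]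

private theorem b_smul_left (A : Mat N) (t : ℝ) (x z : Fin N → ℝ) :
    bilin A (t • x) z = t * bilin A x z := by
  unfold bilin
  simp only [Pi.smul_apply, smul_eq_mul, mul_sum]
  exact sum_congr rfl fun i _ => sum_congr rfl fun j _ => by ring

private theorem b_smul_right (A : Mat N) (t : ℝ) (x z : Fin N → ℝ) :
    bilin A x (t • z) = t * bilin A x z := by
  unfold bilin
  simp only [Pi.smul_apply, smul_eq_mul, mul_sum]
  exact sum_congr rfl fun i _ => sum_congr rfl fun j _ => by ring

private theorem b_symm {A : Mat N} (hA : A.IsSymm) (x y : Fin N → ℝ) :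
    bilin A x y = bilin A y x := by
  unfold bilin
  rw [sum_comm]
  refine sum_congr rfl fun i _ => sum_congr rfl fun j _ => ?_
  rw [hA.apply i j]
  ring

private theorem b_mat_add (A B : Mat N) (x y : Fin N → ℝ) :
    bilin (A + B) x y = bilin A x y + bilin B x y := by
  unfold bilin
  simp only [Matrix.add_apply, mul_add, add_mul, sum_add_distrib]

private theorem b_mat_smul (t : ℝ) (A : Mat N) (x y : Fin N → ℝ) :
    bilin (t • A) x y = t * bilin A x y := by
  unfold bilin
  simp only [Matrix.smul_apply, smul_eq_mul, mul_sum]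
  exact sum_congr rfl fun i _ => sum_congr rfl fun j _ => by ring

private theorem b_mat_sum {p : ℕ} (A : Fin p → Mat N) (x y : Fin N → ℝ) :
    bilin (∑ k, A k) x y = ∑ k, bilin (A k) x y := by
  classical
  have h : ∀ s : Finset (Fin p), bilin (∑ k ∈ s, A k) x y = ∑ k ∈ s, bilin (A k) x y := by
    intro s
    induction s using Finset.induction_on with
    | empty => simp [bilin]
    | insert a s ha ih => rw [sum_insert ha, sum_insert ha, b_mat_add, ih]
  exact h univ

/-- The matrix `D`. -/
def dMat {p : ℕ} (S : Mat N) (B : Fin p → Mat N) (c : Fin p → ℝ) : Mat N :=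
  (1 + ∑ k, c k ^ 2) • S + (-2 : ℝ) • ∑ k, c k • B k

theorem bilin_dMat {p : ℕ} (S : Mat N) (B : Fin p → Mat N) (c : Fin p → ℝ) (x y : Fin N → ℝ) :
    bilin (dMat S B c) x y =
      (1 + ∑ k, c k ^ 2) * bilin S x y - 2 * ∑ k, c k * bilin (B k) x y := by
  unfold dMat
  rw [b_mat_add, b_mat_smul, b_mat_smul, b_mat_sum]
  simp only [b_mat_smul]
  ring

theorem dMat_symm {p : ℕ} {S : Mat N} {B : Fin p → Mat N} (hS : S.IsSymm)
    (hB : ∀ k, (B k).IsSymm) (c : Fin p → ℝ) : (dMat S B c).IsSymm := by
  unfold dMat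
  refine (hS.smul _).add (Matrix.IsSymm.smul ?_ _)
  unfold Matrix.IsSymm
  rw [Matrix.transpose_sum]
  exact sum_congr rfl fun k _ => by rw [Matrix.transpose_smul, hB k]

/-- The four polarised identities for `E k = B k - c k S`. -/
theorem sq_identity {p : ℕ} {S : Mat N} {B : Fin p → Mat N} (h : SphereMap S B) (c : Fin p → ℝ)
    (x : Fin N → ℝ) :
    ∑ k, (bilin (B k) x x - c k * bilin S x x) ^ 2 = bilin S x x * bilin (dMat S B c) x x := by
  obtain ⟨-, -, -, hq⟩ := h
  rw [bilin_dMat]
  have e : ∀ k, (bilin (B k) x x - c k * bilin S x x) ^ 2 =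
      bilin (B k) x x ^ 2 - 2 * bilin S x x * (c k * bilin (B k) x x)
        + bilin S x x ^ 2 * c k ^ 2 := fun k => by ring
  rw [sum_congr rfl fun k _ => e k, sum_add_distrib, sum_sub_distrib, hq, ← mul_sum, ← mul_sum]
  ring

theorem dMat_nonneg {p : ℕ} {S : Mat N} {B : Fin p → Mat N} (h : SphereMap S B) (c : Fin p → ℝ)
    (x : Fin N → ℝ) : 0 ≤ bilin (dMat S B c) x x := by
  have h1 := sq_identity h c x
  have h2 : 0 ≤ ∑ k, (bilin (B k) x x - c k * bilin S x x) ^ 2 :=
    sum_nonneg fun k _ => sq_nonneg _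
  obtain ⟨-, hS0, -, hq⟩ := h
  rcases (hS0 x).lt_or_eq with h3 | h3
  · rw [h1] at h2
    exact nonneg_of_mul_nonneg_right h2 h3
  · have h4 : ∀ k, bilin (B k) x x = 0 := by
      have h5 := hq x
      rw [← h3] at h5
      have h6 : ∑ k, bilin (B k) x x ^ 2 = 0 := by
        rw [h5]
        norm_num
      intro k
      have h7 := (sum_eq_zero_iff_of_nonneg fun k _ => sq_nonneg (bilin (B k) x x)).mp h6 k
        (mem_univ k)
      exact pow_eq_zero_iff (two_ne_zero) |>.mp h7
    rw [bilin_dMat, ← h3]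
    simp [h4]

/-- Polarisation of `∑ (E x x)² = S x x * D x x`: the coefficients of `t` and `t²`. -/
theorem polar {p : ℕ} {S D : Mat N} {E : Fin p → Mat N} (hS : S.IsSymm) (hD : D.IsSymm)
    (hE : ∀ k, (E k).IsSymm)
    (h : ∀ x, ∑ k, bilin (E k) x x ^ 2 = bilin S x x * bilin D x x) (x y : Fin N → ℝ) :
    2 * ∑ k, bilin (E k) x x * bilin (E k) x y = bilin S x x * bilin D x y
        + bilin S x y * bilin D x x ∧
    ∑ k, (2 * (bilin (E k) x x * bilin (E k) y y) + 4 * bilin (E k) x y ^ 2) =
      bilin S x x * bilin D y y + bilin S y y * bilin D x x + 4 * (bilin S x y * bilin D x y) := by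
  have hexp : ∀ (A : Mat N), A.IsSymm → ∀ t : ℝ, bilin A (x + t • y) (x + t • y) =
      bilin A x x + 2 * t * bilin A x y + t ^ 2 * bilin A y y := by
    intro A hA t
    rw [b_add_left, b_add_right, b_add_right, b_smul_left, b_smul_left, b_smul_right,
      b_smul_right, b_symm hA y x]
    ring
  set e11 := fun k => bilin (E k) x x with he11
  set e12 := fun k => bilin (E k) x y with he12
  set e22 := fun k => bilin (E k) y y with he22
  have key : ∀ t : ℝ, ∑ k, e11 k ^ 2 + t * (4 * ∑ k, e11 k * e12 k)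
      + t ^ 2 * ∑ k, (2 * (e11 k * e22 k) + 4 * e12 k ^ 2) + t ^ 3 * (4 * ∑ k, e12 k * e22 k)
      + t ^ 4 * ∑ k, e22 k ^ 2 =
      (bilin S x x + 2 * t * bilin S x y + t ^ 2 * bilin S y y) *
      (bilin D x x + 2 * t * bilin D x y + t ^ 2 * bilin D y y) := by
    intro t
    have h1 := h (x + t • y)
    rw [hexp S hS, hexp D hD] at h1
    rw [← h1]
    simp only [mul_sum, ← sum_add_distrib]
    refine sum_congr rfl fun k _ => ?_
    rw [hexp (E k) (hE k)]
    simp only [he11, he12, he22]
    ring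
  have k0 := key 0
  have k1 := key 1
  have k2 := key (-1)
  have k3 := key 2
  have k4 := key (-2)
  constructor
  · show 2 * ∑ k, e11 k * e12 k = _
    linarith
  · show ∑ k, (2 * (e11 k * e22 k) + 4 * e12 k ^ 2) = _
    linarith

/-- The key inequality in terms of `E`. -/
theorem key_f {p : ℕ} {S D : Mat N} {E : Fin p → Mat N} (hS : S.IsSymm) (hD : D.IsSymm)
    (hE : ∀ k, (E k).IsSymm) (hS0 : ∀ x, 0 ≤ bilin S x x) (hD0 : ∀ x, 0 ≤ bilin D x x)
    (h : ∀ x, ∑ k, bilin (E k) x x ^ 2 = bilin S x x * bilin D x x) (x y : Fin N → ℝ) :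
    2 * ∑ k, bilin (E k) x y ^ 2 ≤ bilin S x x * bilin D y y + bilin S y y * bilin D x x := by
  -- the case `S x y = 0`
  have orth : ∀ x y : Fin N → ℝ, bilin S x y = 0 →
      2 * ∑ k, bilin (E k) x y ^ 2 ≤ bilin S x x * bilin D y y + bilin S y y * bilin D x x := by
    intro x y h0
    have h1 := (polar hS hD hE h x y).2
    rw [h0, zero_mul, mul_zero, add_zero, sum_add_distrib, ← mul_sum, ← mul_sum] at h1
    have h2 : (∑ k, bilin (E k) x x * bilin (E k) y y) ^ 2 ≤
        (∑ k, bilin (E k) x x ^ 2) * ∑ k, bilin (E k) y y ^ 2 :=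
      sum_mul_sq_le_sq_mul_sq univ _ _
    rw [h x, h y] at h2
    set a := ∑ k, bilin (E k) x x * bilin (E k) y y
    set m1 := bilin S x x * bilin D y y with hm1
    set m2 := bilin S y y * bilin D x x with hm2
    have h3 : 0 ≤ m1 := mul_nonneg (hS0 x) (hD0 y)
    have h4 : 0 ≤ m2 := mul_nonneg (hS0 y) (hD0 x)
    have h5 : a ^ 2 ≤ m1 * m2 := by
      calc a ^ 2 ≤ _ := h2
        _ = m1 * m2 := by rw [hm1, hm2]; ring
    have h6 : -a ≤ (m1 + m2) / 2 := by
      by_contra hcon
      push Not at hcon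
      nlinarith [sq_nonneg (m1 - m2)]
    linarith
  rcases (hS0 x).lt_or_eq with hx | hx
  · set s := bilin S x y / bilin S x x with hs
    have hs' : s * bilin S x x = bilin S x y := by
      rw [hs]
      exact div_mul_cancel₀ _ hx.ne'
    have h0 : bilin S x (y + (-s) • x) = 0 := by
      rw [b_add_right, b_smul_right]
      linarith
    have h1 := orth x (y + (-s) • x) h0
    have e1 : ∀ k, bilin (E k) x (y + (-s) • x) ^ 2 = bilin (E k) x y ^ 2
        - 2 * s * (bilin (E k) x x * bilin (E k) x y) + s ^ 2 * bilin (E k) x x ^ 2 := by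
      intro k
      rw [b_add_right, b_smul_right]
      ring
    have e2 : ∀ A : Mat N, A.IsSymm → bilin A (y + (-s) • x) (y + (-s) • x) =
        bilin A y y - 2 * s * bilin A x y + s ^ 2 * bilin A x x := by
      intro A hA
      rw [b_add_left, b_add_right, b_add_right, b_smul_left, b_smul_left, b_smul_right,
        b_smul_right, b_symm hA y x]
      ring
    rw [sum_congr rfl fun k _ => e1 k, sum_add_distrib, sum_sub_distrib, ← mul_sum, ← mul_sum,
      h x, e2 S hS, e2 D hD] at h1
    have h2 := (polar hS hD hE h x y).1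
    have h3 : 2 * s * (2 * ∑ k, bilin (E k) x x * bilin (E k) x y) = 2 * s *
        (bilin S x x * bilin D x y + bilin S x y * bilin D x x) := by rw [h2]
    rw [← hs'] at h3 h1
    nlinarith [h1, h3]
  · -- `S x x = 0`
    have hxy : bilin S x y = 0 := by
      by_contra hne
      have h1 : ∀ t : ℝ, 0 ≤ bilin S y y + 2 * t * bilin S x y := by
        intro t
        have h2 := hS0 (y + t • x)
        rw [b_add_left, b_add_right, b_add_right, b_smul_left, b_smul_left, b_smul_right,
          b_smul_right, b_symm hS y x, ← hx] at h2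
        linarith
      have h3 := h1 (-(bilin S y y + 1) / (2 * bilin S x y))
      have h4 : 2 * (-(bilin S y y + 1) / (2 * bilin S x y)) * bilin S x y =
          -(bilin S y y + 1) := by
        field_simp
      linarith
    exact orth x y hxy

/-- The key inequality. -/
theorem sep_key {p : ℕ} {S : Mat N} {B : Fin p → Mat N} (h : SphereMap S B) (c : Fin p → ℝ)
    (x y : Fin N → ℝ) :
    bilin S x x * bilin S y y - ∑ k, bilin (B k) x x * bilin (B k) y y ≤
      bilin S x x * bilin (dMat S B c) y y + bilin S y y * bilin (dMat S B c) x x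
        - 2 * (bilin S x y * bilin (dMat S B c) x y) := by
  have hh := h
  obtain ⟨hS, hS0, hB, hq⟩ := hh
  set D := dMat S B c with hDdef
  have hD : D.IsSymm := dMat_symm hS hB c
  set E : Fin p → Mat N := fun k => B k + (-c k) • S with hEdef
  have hE : ∀ k, (E k).IsSymm := fun k => (hB k).add (hS.smul _)
  have hEb : ∀ k (x y : Fin N → ℝ), bilin (E k) x y = bilin (B k) x y - c k * bilin S x y := by
    intro k x y
    rw [hEdef]
    simp only
    rw [b_mat_add, b_mat_smul]
    ring
  have hid : ∀ x, ∑ k, bilin (E k) x x ^ 2 = bilin S x x * bilin D x x := by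
    intro x
    rw [← sq_identity h c x]
    exact sum_congr rfl fun k _ => by rw [hEb]
  have h1 := key_f hS hD hE hS0 (dMat_nonneg h c) hid x y
  have h2 := (polar hS hD hE hid x y).2
  rw [sum_add_distrib, ← mul_sum, ← mul_sum] at h2
  have h3 : ∑ k, bilin (E k) x x * bilin (E k) y y =
      ∑ k, bilin (B k) x x * bilin (B k) y y
        - bilin S y y * ∑ k, c k * bilin (B k) x x - bilin S x x * ∑ k, c k * bilin (B k) y y
        + bilin S x x * bilin S y y * ∑ k, c k ^ 2 := by
    simp only [mul_sum, ← sum_sub_distrib, ← sum_add_distrib]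
    refine sum_congr rfl fun k _ => ?_
    rw [hEb, hEb]
    ring
  have h4 := bilin_dMat S B c x x
  have h5 := bilin_dMat S B c y y
  rw [← hDdef] at h4 h5
  have h6 : bilin S y y * bilin D x x = bilin S y y * ((1 + ∑ k, c k ^ 2) * bilin S x x
      - 2 * ∑ k, c k * bilin (B k) x x) := by rw [h4]
  have h7 : bilin S x x * bilin D y y = bilin S x x * ((1 + ∑ k, c k ^ 2) * bilin S y y
      - 2 * ∑ k, c k * bilin (B k) y y) := by rw [h5]
  nlinarith [h1, h2, h3, h6, h7]

theorem act_sepT {q : ℕ} (x y : Fin q → Fin N → ℝ) {A B : Mat N} (hA : A.IsSymm)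
    (hB : B.IsSymm) : act (sepT x y) A B =
      ∑ a, (bilin A (x a) (x a) * bilin B (y a) (y a) + bilin A (y a) (y a) * bilin B (x a) (x a)
        - 2 * (bilin A (x a) (y a) * bilin B (x a) (y a))) := by
  have hone : ∀ u v w z : Fin N → ℝ, ∑ i, ∑ j, ∑ k, ∑ l,
      (u i * v j * w k * z l) * A i k * B j l = bilin A u w * bilin B v z := by
    intro u v w z
    unfold bilin
    rw [sum_mul]
    refine sum_congr rfl fun i _ => ?_
    rw [sum_comm, sum_mul]
    refine sum_congr rfl fun k _ => ?_
    rw [mul_sum]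
    refine sum_congr rfl fun j _ => ?_
    rw [mul_sum]
    exact sum_congr rfl fun l _ => by ring
  have h1 : act (sepT x y) A B = ∑ a, ∑ i, ∑ j, ∑ k, ∑ l,
      ((x a i * y a j - x a j * y a i) * (x a k * y a l - x a l * y a k)) * A i k * B j l := by
    unfold act sepT
    simp only [sum_mul]
    rw [sum_comm]
    symm
    calc _ = ∑ a, ∑ j, ∑ i, ∑ k, ∑ l,
      ((x a i * y a j - x a j * y a i) * (x a k * y a l - x a l * y a k)) * A i k * B j l :=
        sum_congr rfl fun a _ => sum_comm
      _ = ∑ j, ∑ a, ∑ i, ∑ k, ∑ l,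
      ((x a i * y a j - x a j * y a i) * (x a k * y a l - x a l * y a k)) * A i k * B j l :=
        sum_comm
      _ = _ := by
        refine sum_congr rfl fun j _ => ?_
        rw [sum_comm]
        refine sum_congr rfl fun i _ => ?_
        rw [sum_comm]
        refine sum_congr rfl fun k _ => ?_
        rw [sum_comm]
  rw [h1]
  refine sum_congr rfl fun a _ => ?_
  have h2 : ∀ i j k l : Fin N,
      ((x a i * y a j - x a j * y a i) * (x a k * y a l - x a l * y a k)) * A i k * B j l =
      (x a i * y a j * x a k * y a l) * A i k * B j l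
      - (x a i * y a j * y a k * x a l) * A i k * B j l
      - (y a i * x a j * x a k * y a l) * A i k * B j l
      + (y a i * x a j * y a k * x a l) * A i k * B j l := fun i j k l => by ring
  simp only [h2, sum_add_distrib, sum_sub_distrib, hone]
  rw [b_symm hA (y a) (x a), b_symm hB (y a) (x a)]
  ring

theorem sec_eq_act (R : Arr N) (u v : Fin N → ℝ) :
    sec R u v = act R (Matrix.vecMulVec u u) (Matrix.vecMulVec v v) := by
  unfold sec act
  refine sum_congr rfl fun i _ => sum_congr rfl fun j _ => sum_congr rfl fun k _ =>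
    sum_congr rfl fun l _ => ?_
  simp only [Matrix.vecMulVec_apply]
  ring

private theorem gram {M : Mat N} (hM : M.IsSymm) (hM0 : ∀ x, 0 ≤ bilin M x x) :
    ∃ C : Mat N, M = ∑ r, Matrix.vecMulVec (C r) (C r) := by
  have hps : M.PosSemidef := by
    refine Matrix.PosSemidef.of_dotProduct_mulVec_nonneg ?_ ?_
    · unfold Matrix.IsHermitian
      rw [Matrix.conjTranspose_eq_transpose_of_trivial]
      exact hM
    · intro x
      have h := hM0 x
      unfold bilin at h
      have e : star x ⬝ᵥ M.mulVec x = ∑ i, ∑ j, x i * M i j * x j := by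
        simp only [dotProduct, Matrix.mulVec, star_trivial, mul_sum]
        refine sum_congr rfl fun i _ => sum_congr rfl fun j _ => by ring
      rw [e]
      exact h
  open scoped MatrixOrder in
  obtain ⟨C, hC⟩ := CStarAlgebra.nonneg_iff_eq_star_mul_self.mp hps.nonneg
  refine ⟨C, ?_⟩
  ext i j
  rw [hC, Matrix.mul_apply, Matrix.sum_apply]
  refine sum_congr rfl fun r _ => ?_
  rw [Matrix.star_apply, star_trivial, Matrix.vecMulVec_apply]

private theorem act_sum_left {m : ℕ} (R : Arr N) (A : Fin m → Mat N) (B : Mat N) :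
    act R (∑ r, A r) B = ∑ r, act R (A r) B := by
  classical
  have h : ∀ s : Finset (Fin m), act R (∑ r ∈ s, A r) B = ∑ r ∈ s, act R (A r) B := by
    intro s
    induction s using Finset.induction_on with
    | empty => simp [act]
    | insert a s ha ih => rw [sum_insert ha, sum_insert ha, act_add_left, ih]
  exact h univ

private theorem act_sum_right {m : ℕ} (R : Arr N) (A : Mat N) (B : Fin m → Mat N) :
    act R A (∑ r, B r) = ∑ r, act R A (B r) := by
  classical
  have h : ∀ s : Finset (Fin m), act R A (∑ r ∈ s, B r) = ∑ r ∈ s, act R A (B r) := by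
    intro s
    induction s using Finset.induction_on with
    | empty => simp [act]
    | insert a s ha ih => rw [sum_insert ha, sum_insert ha, act_add_right, ih]
  exact h univ

private theorem ip_sum_right {m : ℕ} (A : Mat N) (B : Fin m → Mat N) :
    ip A (∑ r, B r) = ∑ r, ip A (B r) := by
  classical
  have h : ∀ s : Finset (Fin m), ip A (∑ r ∈ s, B r) = ∑ r ∈ s, ip A (B r) := by
    intro s
    induction s using Finset.induction_on with
    | empty => simp [ip]
    | insert a s ha ih => rw [sum_insert ha, sum_insert ha, ip_add, ih]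
  exact h univ

theorem act_le_of_sec {R : Arr N} {G S D : Mat N} {t : ℝ}
    (hR : ∀ u v, sec R u v ≤ t * bilin G u u * bilin G v v)
    (hS : S.IsSymm) (hS0 : ∀ x, 0 ≤ bilin S x x) (hD : D.IsSymm) (hD0 : ∀ x, 0 ≤ bilin D x x) :
    act R S D ≤ t * ip G S * ip G D := by
  obtain ⟨C, hC⟩ := gram hS hS0
  obtain ⟨F, hF⟩ := gram hD hD0
  have h1 : act R S D = ∑ r, ∑ s, sec R (C r) (F s) := by
    rw [hC, act_sum_left]
    refine sum_congr rfl fun r _ => ?_
    rw [hF, act_sum_right]
    exact sum_congr rfl fun s _ => (sec_eq_act R _ _).symm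
  have h2 : ip G S = ∑ r, bilin G (C r) (C r) := by
    rw [hC, ip_sum_right]
    exact sum_congr rfl fun r _ => ip_vecMulVec G _ _
  have h3 : ip G D = ∑ s, bilin G (F s) (F s) := by
    rw [hF, ip_sum_right]
    exact sum_congr rfl fun s _ => ip_vecMulVec G _ _
  rw [h1, h2, h3, mul_assoc, sum_mul_sum, mul_sum]
  refine sum_le_sum fun r _ => ?_
  rw [mul_sum]
  refine sum_le_sum fun s _ => ?_
  have := hR (C r) (F s)
  linarith

theorem sphereNonpos_sep {G : Mat N} (hG : G.IsSymm) (hG0 : ∀ x, 0 ≤ bilin G x x) {q : ℕ}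
    (x y : Fin q → Fin N → ℝ) {h : ℝ}
    (hsec : ∀ u v, sec (sepT x y) u v ≤ h / 2 * bilin G u u * bilin G v v) :
    SphereNonpos (sepT x y + (-h) • kn G) := by
  intro p S B hSB
  have hh := hSB
  obtain ⟨hS, hS0, hB, hq⟩ := hh
  set σ := ip S G with hσ
  set c : Fin p → ℝ := fun k => ip (B k) G / σ with hc
  set D := dMat S B c with hD
  have hDs : D.IsSymm := dMat_symm hS hB c
  have hD0 : ∀ x, 0 ≤ bilin D x x := dMat_nonneg hSB c
  -- the separable part
  have h1 : act (sepT x y) S S - ∑ k, act (sepT x y) (B k) (B k) ≤ 3 * act (sepT x y) S D := by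
    rw [act_sepT x y hS hS, act_sepT x y hS hDs, sum_congr rfl fun k _ => act_sepT x y (hB k) (hB k),
      sum_comm, mul_sum, ← sum_sub_distrib]
    refine sum_le_sum fun a _ => ?_
    have h2 := sep_key hSB c (x a) (y a)
    have h3 := act_kn_sphere hSB (A := Matrix.vecMulVec (x a) (x a) + Matrix.vecMulVec (y a) (y a))
      (by
        refine Matrix.IsSymm.add ?_ ?_ <;>
        · ext i j
          simp only [Matrix.transpose_apply, Matrix.vecMulVec_apply]
          ring)
    have hkn : kn (Matrix.vecMulVec (x a) (x a) + Matrix.vecMulVec (y a) (y a)) =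
        sepT (fun _ : Fin 1 => x a) (fun _ : Fin 1 => y a) := by
      funext i j k l
      simp only [kn, sepT, Matrix.add_apply, Matrix.vecMulVec_apply, sum_const, card_univ,
        Fintype.card_fin, one_smul]
      ring
    rw [hkn, act_sepT _ _ hS hS, sum_congr rfl fun k _ => act_sepT _ _ (hB k) (hB k)] at h3
    simp only [sum_const, card_univ, Fintype.card_fin, one_smul, ip_add, ip_vecMulVec] at h3
    have h4 : ∑ k, (bilin (B k) (x a) (x a) + bilin (B k) (y a) (y a)) ^ 2 =
        bilin S (x a) (x a) ^ 2 + bilin S (y a) (y a) ^ 2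
          + 2 * ∑ k, bilin (B k) (x a) (x a) * bilin (B k) (y a) (y a) := by
      rw [← hq (x a), ← hq (y a), mul_sum, ← sum_add_distrib, ← sum_add_distrib]
      exact sum_congr rfl fun k _ => by ring
    rw [h4] at h3
    nlinarith [h2, h3]
  have h2 : act (sepT x y) S D ≤ h / 2 * ip G S * ip G D := act_le_of_sec hsec hS hS0 hDs hD0
  have h3 := act_kn_sphere hSB hG
  have h4 : ip G S * ip G D = σ ^ 2 - ∑ k, ip (B k) G ^ 2 := by
    have hDG : ip G D = (1 + ∑ k, c k ^ 2) * σ - 2 * ∑ k, c k * ip (B k) G := by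
      rw [hD]
      unfold dMat
      rw [ip_add, ip_smul, ip_smul, ip_sum_right, ip_comm G S]
      have : ∀ k, ip G (c k • B k) = c k * ip (B k) G := fun k => by
        rw [ip_smul, ip_comm G (B k)]
      rw [sum_congr rfl fun k _ => this k]
      ring
    rw [hDG, ip_comm G S, ← hσ]
    by_cases h0 : σ = 0
    · have h5 : ∑ k, ip (B k) G ^ 2 ≤ ip S G ^ 2 :=
        (minkowski hS0 (fun x => (hq x).le) hG hG0).2
      rw [← hσ, h0] at h5
      have h6 : 0 ≤ ∑ k, ip (B k) G ^ 2 := sum_nonneg fun k _ => sq_nonneg _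
      rw [h0]
      nlinarith
    · have h5 : ∀ k, ip (B k) G = c k * σ := fun k => by
        rw [hc]
        simp only
        rw [div_mul_cancel₀ _ h0]
      have h6 : ∑ k, c k * ip (B k) G = (∑ k, c k ^ 2) * σ := by
        rw [sum_mul]
        exact sum_congr rfl fun k _ => by rw [h5]; ring
      have h7 : ∑ k, ip (B k) G ^ 2 = (∑ k, c k ^ 2) * σ ^ 2 := by
        rw [sum_mul]
        exact sum_congr rfl fun k _ => by rw [h5]; ring
      rw [h6, h7]
      ring
  rw [act_add, act_smul, sum_congr rfl fun k _ => act_add (sepT x y) ((-h) • kn G) (B k) (B k),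
    sum_add_distrib, sum_congr rfl fun k _ => act_smul (-h) (kn G) (B k) (B k), ← mul_sum]
  have h5 : h / 2 * ip G S * ip G D = h / 2 * (σ ^ 2 - ∑ k, ip (B k) G ^ 2) := by
    rw [mul_assoc, h4]
  rw [h5] at h2
  have h6 : h * (∑ k, act (kn G) (B k) (B k) - act (kn G) S S) =
      h * (3 / 2 * (∑ k, ip (B k) G ^ 2 - ip S G ^ 2)) := by rw [h3]
  rw [← hσ] at h6
  linarith

end Pool.Agent.H72S
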