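import Pool.Agent.Lib.H72S.Sep
import Pool.Agent.Lib.H88S.Second
import Pool.Agent.Lib.H11S.First

/-!
# H72S: small lemmas on algebraic curvature tensors
-/

set_option autoImplicit false

open Finset

namespace Pool.Agent.H72S

open Pool.Agent.H69Hopf Pool.Agent.H88S Pool.Agent.H11S

variable {N : ℕ}

theorem algCurv_kn {L : Mat N} (hL : L.IsSymm) : IsAlgCurv (kn L) := by
  have h : ∀ i j, L i j = L j i := fun i j => hL.apply j i
  refine ⟨fun i j k l => ?_, fun i j k l => ?_, fun i j k l => ?_⟩
  · unfold kn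
    ring
  · unfold kn
    rw [h k i, h l j, h k j, h l i]
    ring
  · unfold kn
    rw [h j i, h k i, h k j]
    ring

theorem algCurv_sub {R Q : Arr N} (hR : IsAlgCurv R) (hQ : IsAlgCurv Q) :
    IsAlgCurv (R - Q) := by
  have h : R - Q = R + (-1 : ℝ) • Q := by
    rw [neg_one_smul, sub_eq_add_neg]
  rw [h]
  exact SECOND_algCurv_add hR (SECOND_algCurv_smul hQ _)

theorem algCurv_zero : IsAlgCurv (0 : Arr N) := by
  refine ⟨fun i j k l => ?_, fun i j k l => ?_, fun i j k l => ?_⟩ <;> simp

theorem firstKind_sub (R Q : Arr N) (w : Mat N) :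
    firstKind (R - Q) w = firstKind R w - firstKind Q w := by
  unfold firstKind
  simp only [Pi.sub_apply, sub_mul, sum_sub_distrib]

theorem bilin_nonneg {L : Mat N} (hL : L.PosSemidef) (x : Fin N → ℝ) : 0 ≤ bilin L x x := by
  have h1 := hL.dotProduct_mulVec_nonneg x
  have h2 : bilin L x x = star x ⬝ᵥ L.mulVec x := by
    unfold bilin
    simp only [dotProduct, Matrix.mulVec, Finset.mul_sum, Pi.star_apply, star_trivial, mul_assoc]
  rw [h2]
  exact h1

theorem isSymm_of_psd {L : Mat N} (hL : L.PosSemidef) : L.IsSymm := by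
  have h1 := hL.isHermitian
  rw [Matrix.IsHermitian, Matrix.conjTranspose_eq_transpose_of_trivial] at h1
  exact h1

end Pool.Agent.H72S
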